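import Pool.Agent.W5h24.EP.Every
import Pool.Agent.W5h9.GC.Main

/-!
# Every point in almost all coordinates: the bridge to the property `GC.Good`
-/

set_option autoImplicit false

namespace Pool.Agent.W5h24.EP

open Filter Matrix

/-- the condition on the size of the point: full coefficient, or a coefficient at most
`4 / (A + 1)` -/
def Size (A ε : ℝ) : Prop := A < 5 ∨ (1 - ε) * (A + 1) < 4

theorem hgt_eq (x : ℤ × ℤ) : Pool.Agent.W5h9.GC.hgt x = hgt x := rfl

theorem coprime_act (g : SpecialLinearGroup (Fin 2) ℤ) {x : ℤ × ℤ} (hx : IsCoprime x.1 x.2) :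
    IsCoprime (act g x).1 (act g x).2 := by
  obtain ⟨r, s, hrs⟩ := hx
  have hdet := g.det_coe
  rw [Matrix.det_fin_two] at hdet
  refine ⟨r * g 1 1 - s * g 1 0, s * g 0 0 - r * g 0 1, ?_⟩
  unfold act
  simp only
  have : (r * g 1 1 - s * g 1 0) * (g 0 0 * x.1 + g 0 1 * x.2) +
      (s * g 0 0 - r * g 0 1) * (g 1 0 * x.1 + g 1 1 * x.2) =
      (g 0 0 * g 1 1 - g 0 1 * g 1 0) * (r * x.1 + s * x.2) := by ring
  rw [this, hdet, hrs, mul_one]

theorem hgt_nonneg (x : ℤ × ℤ) : 0 ≤ hgt x := Real.log_natCast_nonneg _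

theorem hgt_act (g : SpecialLinearGroup (Fin 2) ℤ) {D : ℕ} (hD : 1 ≤ D) (hg : g ∈ Ball D)
    (x : ℤ × ℤ) : hgt (act g x) ≤ Real.log 2 + Real.log D + hgt x := by
  have hl2 : 0 ≤ Real.log 2 := Real.log_nonneg (by norm_num)
  have hlD : 0 ≤ Real.log D := Real.log_natCast_nonneg D
  set M : ℕ := max x.1.natAbs x.2.natAbs with hM
  have hb : ∀ i j, (g i j).natAbs ≤ D := by
    intro i j
    have h := hg i j
    rw [Int.abs_eq_natAbs] at h
    omega
  have h1 : ∀ i : Fin 2, (g i 0 * x.1 + g i 1 * x.2).natAbs ≤ 2 * D * M := by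
    intro i
    refine (Int.natAbs_add_le _ _).trans ?_
    rw [Int.natAbs_mul, Int.natAbs_mul]
    have h2 : (g i 0).natAbs * x.1.natAbs ≤ D * M := Nat.mul_le_mul (hb i 0) (le_max_left _ _)
    have h3 : (g i 1).natAbs * x.2.natAbs ≤ D * M := Nat.mul_le_mul (hb i 1) (le_max_right _ _)
    nlinarith
  have h2 : max (act g x).1.natAbs (act g x).2.natAbs ≤ 2 * D * M := max_le (h1 0) (h1 1)
  rcases Nat.eq_zero_or_pos (max (act g x).1.natAbs (act g x).2.natAbs) with h0 | h0
  · unfold hgt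
    rw [h0]
    simp only [Nat.cast_zero, Real.log_zero]
    have := Real.log_natCast_nonneg M
    linarith
  · have hM0 : 0 < M := by
      rcases Nat.eq_zero_or_pos M with h3 | h3
      · rw [h3, mul_zero] at h2
        omega
      · exact h3
    have h4 : Real.log ((max (act g x).1.natAbs (act g x).2.natAbs : ℕ) : ℝ) ≤
        Real.log ((2 * D * M : ℕ) : ℝ) := Real.log_le_log (by exact_mod_cast h0) (by exact_mod_cast h2)
    have hDr : (0 : ℝ) < D := by exact_mod_cast hD
    have hMr : (0 : ℝ) < M := by exact_mod_cast hM0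
    push_cast at h4
    rw [Real.log_mul (by positivity) (by positivity), Real.log_mul (by norm_num) (by positivity)] at h4
    unfold hgt
    rw [← hM]
    push_cast
    exact h4

/-- small points are excluded -/
theorem lt_hgt_of_good {ε η A : ℝ} (hη : 0 ≤ η) {D : ℕ} {y : ℤ × ℤ} (hy : IsCoprime y.1 y.2)
    (h : Good ε η A D y) : η * Real.log D < hgt y := by
  by_contra hcon
  push Not at hcon
  have hl : 0 ≤ Real.log (D : ℝ) := Real.log_natCast_nonneg D
  have h1 := (h 1 (fun _ => y) ∅ ⟨fun _ => ⟨hy, hcon⟩, fun i j hij => absurd (Subsingleton.elim i j) hij, by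
    rw [Finset.sum_empty]; positivity⟩).1 0
  exact h1 (by ring)

theorem bridge (A ε : ℝ) (hA : 0 ≤ A) (hε : 0 < ε) (hε1 : ε ≤ 1) (hs : Size A ε) :
    ∃ δ κ μ : ℝ, 0 < δ ∧ 0 < κ ∧ 0 < μ ∧ ∀ᶠ D : ℕ in atTop,
      (Ball D).Finite ∧ (D : ℝ) ^ 2 / 2 ≤ ((Ball D).ncard : ℝ) ∧
      ∀ x : ℤ × ℤ, IsCoprime x.1 x.2 → hgt x ≤ A * Real.log D →
        (({g : SpecialLinearGroup (Fin 2) ℤ | g ∈ Ball D ∧
          ¬ (Pool.Agent.W5h9.GC.Good ε κ (act g x) ∧ μ * Real.log D ≤ hgt (act g x))}.ncard : ℕ) : ℝ) ≤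
            (D : ℝ) ^ (-δ) * (Ball D).ncard := by
  classical
  obtain ⟨ε', he0, he1, he2⟩ : ∃ ε' : ℝ, 0 < ε' ∧ ε' ≤ ε ∧ (¬ A < 5 → (1 - ε) * (A + 1) + 4 * ε' ≤ 4 - ε' * 4) := by
    by_cases h5 : A < 5
    · exact ⟨ε, hε, le_rfl, fun h => absurd h5 h⟩
    · have h4 : (1 - ε) * (A + 1) < 4 := by
        rcases hs with h | h
        · exact absurd h h5
        · exact h
      refine ⟨min ε ((4 - (1 - ε) * (A + 1)) / 8), lt_min hε (by linarith), min_le_left _ _, fun _ => ?_⟩
      have := min_le_right ε ((4 - (1 - ε) * (A + 1)) / 8)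
      linarith
  obtain ⟨δ, η, hδ, hη, h⟩ := result A ε' hA he0 (he1.trans hε1)
  refine ⟨δ, η / (A + 2), η, hδ, by positivity, hη, ?_⟩
  have hev : ∀ᶠ D : ℕ in atTop, Real.log 2 ≤ min 1 (4 * ε') * Real.log D := by
    have h1 : Tendsto (fun D : ℕ => min 1 (4 * ε') * Real.log (D : ℝ)) atTop atTop :=
      Tendsto.const_mul_atTop (lt_min one_pos (by linarith))
        (Real.tendsto_log_atTop.comp tendsto_natCast_atTop_atTop)
    exact h1.eventually_ge_atTop _
  filter_upwards [h, hev, eventually_ge_atTop 1] with D hD hD2 hD1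
  obtain ⟨b1, b2, b3⟩ := hD
  have hL0 : 0 ≤ Real.log (D : ℝ) := Real.log_natCast_nonneg D
  have hL1 : Real.log 2 ≤ Real.log D := hD2.trans (by
    have := mul_le_mul_of_nonneg_right (min_le_left 1 (4 * ε')) hL0
    linarith)
  have hL4 : Real.log 2 ≤ 4 * ε' * Real.log D := hD2.trans
    (mul_le_mul_of_nonneg_right (min_le_right _ _) hL0)
  refine ⟨b1, b2, ?_⟩
  intro x hx hxA
  refine le_trans ?_ (b3 x hx hxA)
  have hsub : {g : SpecialLinearGroup (Fin 2) ℤ | g ∈ Ball D ∧
      ¬ (Pool.Agent.W5h9.GC.Good ε (η / (A + 2)) (act g x) ∧ η * Real.log D ≤ hgt (act g x))} ⊆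
      {g : SpecialLinearGroup (Fin 2) ℤ | g ∈ Ball D ∧ ¬ Good ε' η A D (act g x)} := by
    rintro g ⟨hg, hbad⟩
    refine ⟨hg, fun hgood => hbad ?_⟩
    have hy := coprime_act g hx
    have hlow := lt_hgt_of_good hη.le hy hgood
    have hup := hgt_act g hD1 hg x
    set y := act g x with hydef
    have hy0 := hgt_nonneg y
    have hup2 : hgt y ≤ (A + 1) * Real.log D + Real.log 2 := by linarith
    have hup3 : hgt y ≤ (A + 2) * Real.log D := by linarith
    have hconv : ∀ t : ℝ, t ≤ η / (A + 2) * hgt y → t ≤ η * Real.log D := by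
      intro t ht
      refine ht.trans ?_
      calc η / (A + 2) * hgt y ≤ η / (A + 2) * ((A + 2) * Real.log D) :=
            mul_le_mul_of_nonneg_left hup3 (by positivity)
        _ = η * Real.log D := by field_simp
    refine ⟨?_, hlow.le⟩
    intro q α T hα hTp hT
    have hone : ∀ i, y.1 * (α i).2 - y.2 * (α i).1 ≠ 0 ∧
        (1 - ε) * hgt y ≤ Pool.Agent.W5h9.GC.N1 (α i) T y := by
      intro i
      have h1 := hgood 1 (fun _ => α i) T ⟨fun _ => ⟨(hα i).1, hconv _ (hα i).2⟩,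
        fun a b hab => absurd (Subsingleton.elim a b) hab, hconv _ hT⟩
      obtain ⟨g1, g2, g3, -⟩ := h1
      refine ⟨g1 0, ?_⟩
      have e1 : N1 (fun _ : Fin 1 => α i) T y = Pool.Agent.W5h9.GC.N1 (α i) T y := by
        unfold N1 Pool.Agent.W5h9.GC.N1
        simp
      rw [e1, Nat.cast_one, mul_one] at g2 g3
      by_cases h5 : A < 5
      · refine le_trans ?_ (g3 h5)
        exact mul_le_mul_of_nonneg_right (by linarith) hy0
      · refine le_trans ?_ g2
        have h4 := he2 h5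
        have hε'1 : 0 ≤ 1 - ε' := by linarith
        rcases le_total (hgt y) (4 * Real.log D) with hc | hc
        · rw [min_eq_left hc]
          exact mul_le_mul_of_nonneg_right (by linarith) hy0
        · rw [min_eq_right hc]
          have h6 : (1 - ε) * hgt y ≤ (1 - ε) * ((A + 1) * Real.log D + Real.log 2) :=
            mul_le_mul_of_nonneg_left hup2 (by linarith)
          have h7 : ((1 - ε) * (A + 1) + 4 * ε') * Real.log D ≤ (4 - ε' * 4) * Real.log D :=
            mul_le_mul_of_nonneg_right h4 hL0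
          have h8 : (1 - ε) * Real.log 2 ≤ Real.log 2 := by
            have := Real.log_nonneg (show (1 : ℝ) ≤ 2 by norm_num)
            nlinarith
          nlinarith
    refine ⟨fun i => (hone i).1, ?_⟩
    calc (1 - ε) * q * Pool.Agent.W5h9.GC.hgt y = ∑ _i : Fin q, (1 - ε) * hgt y := by
          rw [Finset.sum_const, Finset.card_univ, Fintype.card_fin, nsmul_eq_mul, hgt_eq]
          ring
      _ ≤ _ := Finset.sum_le_sum fun i _ => (hone i).2
  have hfin : ({g : SpecialLinearGroup (Fin 2) ℤ | g ∈ Ball D ∧ ¬ Good ε' η A D (act g x)}).Finite :=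
    b1.subset fun g hg => hg.1
  exact_mod_cast Set.ncard_le_ncard hsub hfin

end Pool.Agent.W5h24.EP

namespace Pool.Agent.W5h24.EP

open Filter Matrix

theorem good_mono {ε κ κ' : ℝ} (h : κ' ≤ κ) {x : ℤ × ℤ} (hg : Pool.Agent.W5h9.GC.Good ε κ x) :
    Pool.Agent.W5h9.GC.Good ε κ' x := by
  have h0 : 0 ≤ Pool.Agent.W5h9.GC.hgt x := hgt_nonneg x
  intro q α T hα hTp hT
  exact hg q α T (fun i => ⟨(hα i).1, (hα i).2.trans (mul_le_mul_of_nonneg_right h h0)⟩) hTp
    (hT.trans (mul_le_mul_of_nonneg_right h h0))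

end Pool.Agent.W5h24.EP
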