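import Pool.Agent.W5h9.GC.Cov
import Pool.Agent.W5h24.EP.Bridge

/-!
# From the truncated inequality to the points of curves, for an arbitrary set of rational points

The two theorems generalise `union_bound` and `curves` of `Pool.Agent.W5h9.GC.Cov` (with the same
proofs).
-/

set_option autoImplicit false

namespace Pool.Agent.W5h24.EP

open NumberField IsDedekindDomain Height Pool.Agent.H691R3
open Pool.Agent.W5h9.GC (ev dt exists_prim mob fm fm_ne dt_fm_ne height_mob exists_over over_inj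
  mob_sub near_of_dvd le_norm)

lemma union_bound_set {ε : ℝ} {N : Set (ℤ × ℤ)} (hN : ∀ x ∈ N, IsCoprime x.1 x.2)
    (hV : ∀ (q : ℕ) (α : Fin q → ℤ × ℤ) (T : Finset ℕ),
      (∀ i, IsCoprime (α i).1 (α i).2) → (∀ p ∈ T, p.Prime) → ∃ C : ℝ, ∀ x ∈ N,
      (∀ i, x.1 * (α i).2 - x.2 * (α i).1 ≠ 0) → (1 - ε) * q * Pool.Agent.W5h9.GC.hgt x ≤ ∑ i, Pool.Agent.W5h9.GC.N1 (α i) T x + C)
    {q : ℕ} (l : Fin q → ℤ × ℤ) (hl0 : ∀ i, l i ≠ 0) (hl : ∀ i j, i ≠ j → dt (l i) (l j) ≠ 0) (T : Finset ℕ)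
    (hT : ∀ p ∈ T, p.Prime) :
    ∃ C : ℝ, ∀ x ∈ N, (∀ i, ev (l i) x ≠ 0) →
      (1 - ε) * q * Pool.Agent.W5h9.GC.hgt x ≤
        ∑ p ∈ (Finset.univ.biUnion fun i => (ev (l i) x).natAbs.primeFactors) \ T, Real.log p + C := by
  classical
  choose c α hc hα hev using fun i => exists_prim (l i) (hl0 i)
  set T' : Finset ℕ := T ∪ Finset.univ.biUnion fun i => Finset.univ.biUnion fun j =>
    (dt (l i) (l j)).natAbs.primeFactors with hT'
  obtain ⟨C, hC⟩ := hV q α T' hα (by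
    intro p hp
    rw [hT', Finset.mem_union] at hp
    rcases hp with hp | hp
    · exact hT p hp
    · obtain ⟨i, -, hp⟩ := Finset.mem_biUnion.1 hp
      obtain ⟨j, -, hp⟩ := Finset.mem_biUnion.1 hp
      exact Nat.prime_of_mem_primeFactors hp)
  refine ⟨C, fun x hx hne => ?_⟩
  have hne' : ∀ i, x.1 * (α i).2 - x.2 * (α i).1 ≠ 0 := by
    intro i h0
    apply hne i
    rw [hev, h0, mul_zero]
  refine (hC x hx hne').trans (add_le_add_left ?_ C)
  have hdisj : (Set.univ : Set (Fin q)).PairwiseDisjoint fun i => (ev (l i) x).natAbs.primeFactors \ T' := by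
    intro i _ j _ hij
    rw [Function.onFun, Finset.disjoint_left]
    intro p hp hp'
    rw [Finset.mem_sdiff] at hp hp'
    have hpp := Nat.prime_of_mem_primeFactors hp.1
    have h1 : (p : ℤ) ∣ ev (l i) x := Int.natCast_dvd.2 (Nat.dvd_of_mem_primeFactors hp.1)
    have h2 : (p : ℤ) ∣ ev (l j) x := Int.natCast_dvd.2 (Nat.dvd_of_mem_primeFactors hp'.1)
    obtain ⟨r, s, hrs⟩ := hN x hx
    have h3 : dt (l i) (l j) = (ev (l i) x * (l j).2 - ev (l j) x * (l i).2) * r +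
        (ev (l j) x * (l i).1 - ev (l i) x * (l j).1) * s := by
      have : dt (l i) (l j) = dt (l i) (l j) * (r * x.1 + s * x.2) := by rw [hrs, mul_one]
      rw [this]
      unfold dt ev
      ring
    have h4 : (p : ℤ) ∣ dt (l i) (l j) := by
      rw [h3]
      exact dvd_add (Dvd.dvd.mul_right (dvd_sub (Dvd.dvd.mul_right h1 _) (Dvd.dvd.mul_right h2 _)) _)
        (Dvd.dvd.mul_right (dvd_sub (Dvd.dvd.mul_right h2 _) (Dvd.dvd.mul_right h1 _)) _)
    apply hp.2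
    rw [hT']
    refine Finset.mem_union_right _ (Finset.mem_biUnion.2 ⟨i, Finset.mem_univ _, Finset.mem_biUnion.2
      ⟨j, Finset.mem_univ _, ?_⟩⟩)
    rw [Nat.mem_primeFactors]
    exact ⟨hpp, Int.natCast_dvd.1 h4, Int.natAbs_ne_zero.2 (hl i j hij)⟩
  calc ∑ i, Pool.Agent.W5h9.GC.N1 (α i) T' x ≤ ∑ i, ∑ p ∈ (ev (l i) x).natAbs.primeFactors \ T', Real.log p := by
        refine Finset.sum_le_sum fun i _ => ?_
        unfold Pool.Agent.W5h9.GC.N1
        refine Finset.sum_le_sum_of_subset_of_nonneg (Finset.sdiff_subset_sdiff (Nat.primeFactors_mono ?_ ?_)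
          subset_rfl) fun p _ _ => Real.log_natCast_nonneg p
        · rw [hev, Int.natAbs_mul]
          exact Dvd.intro_left _ rfl
        · exact Int.natAbs_ne_zero.2 (hne i)
    _ = ∑ p ∈ Finset.univ.biUnion fun i => (ev (l i) x).natAbs.primeFactors \ T', Real.log p := by
        rw [Finset.sum_biUnion]
        simpa using hdisj
    _ ≤ _ := by
        refine Finset.sum_le_sum_of_subset_of_nonneg ?_ fun p _ _ => Real.log_natCast_nonneg p
        intro p hp
        obtain ⟨i, hi, hp⟩ := Finset.mem_biUnion.1 hp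
        rw [Finset.mem_sdiff] at hp ⊢
        refine ⟨Finset.mem_biUnion.2 ⟨i, hi, hp.1⟩, fun h => hp.2 ?_⟩
        rw [hT']
        exact Finset.mem_union_left _ h


open Polynomial Pool.Agent.TH905.VF in
theorem curves_set {ε : ℝ} (hε : ε ≤ 1) {N : Set (ℤ × ℤ)} (hN : ∀ x ∈ N, IsCoprime x.1 x.2)
    (hV : ∀ (q : ℕ) (α : Fin q → ℤ × ℤ) (T : Finset ℕ),
      (∀ i, IsCoprime (α i).1 (α i).2) → (∀ p ∈ T, p.Prime) → ∃ C : ℝ, ∀ x ∈ N,
      (∀ i, x.1 * (α i).2 - x.2 * (α i).1 ≠ 0) → (1 - ε) * q * Pool.Agent.W5h9.GC.hgt x ≤ ∑ i, Pool.Agent.W5h9.GC.N1 (α i) T x + C) :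
    ∀ (A : Type) [CommRing A] [IsDedekindDomain A] [Algebra ℚ A] [Algebra ℚ[X] A] [IsScalarTower ℚ ℚ[X] A]
      [Module.Finite ℚ[X] A] [FaithfulSMul ℚ[X] A] (q : ℕ) (a : Fin q → ℚ) (u : Fin q → ℕ)
      (y : ∀ j, Fin (u j + 1) → A) (g : Matrix (Fin 2) (Fin 2) ℤ) (ε' : ℝ), Function.Injective a →
      (∀ j, y j 0 = Pool.Agent.W223.AC.tt A - algebraMap ℚ[X] A (C (a j))) →
      (∀ j l, y j l ∈ (Ideal.span {Pool.Agent.W223.AC.tt A - algebraMap ℚ[X] A (C (a j))}).radical) →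
      g.det ≠ 0 → 0 < ε' →
      ∃ c : ℝ, ∀ x ∈ N, ev (g 1 0, g 1 1) x ≠ 0 → (∀ j, mob g x ≠ a j) →
        ∀ (L : Type) [Field L] [NumberField L] (φ : A →+* L) (S : Finset ℕ) (hS : ∀ p ∈ S, p.Prime),
          φ (Pool.Agent.W223.AC.tt A) = algebraMap ℚ L (mob g x) →
          (1 - ε) * q * logHeight₁ (mob g x) +
            proxC (K := ℚ) (above_finite ℚ S hS).toFinset (n := 1) (q := fun _ => q) (A := fun _ => A)
              (u := fun _ => u) (fun _ => y) (fun _ => φ) ≤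
          ld ℚ L + ((∑ j, (Module.finrank ℚ (A ⧸ Ideal.span (Set.range (y j))) : ℝ)) /
            Module.finrank ℚ[X] A + ε') * logHeight₁ (mob g x) + ∑ p ∈ S, Real.log p + c := by
  classical
  intro A _ _ _ _ _ _ _ q a u y g ε' ha hy0 hyr hg hε'
  obtain ⟨T, c, hk⟩ := prod_key ℚ (n := 1) (q := fun _ => q) (fun _ => A) (fun _ => a) (fun _ => u) (fun _ => y)
    (fun _ j => hy0 j) (fun _ j l => hyr j l) ε' hε'
  -- a prime of `𝓞 ℚ` over each prime number
  have hex : ∀ p : ℕ, ∃ v : HeightOneSpectrum (𝓞 ℚ), p.Prime → (p : 𝓞 ℚ) ∈ v.asIdeal := by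
    intro p
    by_cases hp : p.Prime
    · obtain ⟨v, hv⟩ := exists_over p hp
      exact ⟨v, fun _ => hv⟩
    · obtain ⟨v, hv⟩ := exists_over 2 Nat.prime_two
      exact ⟨v, fun h => absurd h hp⟩
  choose vp hvp using hex
  have hinj : ∀ p p' : ℕ, p.Prime → p'.Prime → vp p = vp p' → p = p' := by
    intro p p' hp hp' h
    have h1 := hvp p' hp'
    rw [← h] at h1
    exact over_inj hp hp' (hvp p hp) h1
  -- the excluded primes
  have hTfin : {p : ℕ | p.Prime ∧ vp p ∈ T}.Finite := by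
    refine Set.Finite.of_finite_image (f := vp) (T.finite_toSet.subset ?_) ?_
    · rintro _ ⟨p, hp, rfl⟩
      exact hp.2
    · intro p hp p' hp' h
      exact hinj p p' hp.1 hp'.1 h
  set T₀ : Finset ℕ := hTfin.toFinset ∪ (g.det.natAbs.primeFactors ∪
    Finset.univ.biUnion fun j => (a j).den.primeFactors) with hT₀
  obtain ⟨C₁, hC₁⟩ := union_bound_set hN hV (fun j => fm g (a j)) (fun j => fm_ne hg _)
    (fun i j hij => dt_fm_ne hg (ha.ne hij)) T₀ (by
      intro p hp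
      rw [hT₀, Finset.mem_union, Finset.mem_union] at hp
      rcases hp with hp | hp | hp
      · exact ((Set.Finite.mem_toFinset _).1 hp).1
      · exact Nat.prime_of_mem_primeFactors hp
      · obtain ⟨j, -, hp⟩ := Finset.mem_biUnion.1 hp
        exact Nat.prime_of_mem_primeFactors hp)
  obtain ⟨C₂, hC₂⟩ := height_mob g
  refine ⟨c + C₁ + (1 - ε) * q * C₂, ?_⟩
  intro x hx hx0 hne L _ _ φ S hS hφ
  have hxne : x ≠ 0 := by
    rintro rfl
    exact hx0 (by unfold ev; simp)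
  have hev : ∀ j, ev (fm g (a j)) x ≠ 0 := by
    intro j h0
    apply hne j
    have h1 := mob_sub g (a j) x hx0
    rw [h0] at h1
    simp only [Int.cast_zero, zero_div] at h1
    exact sub_eq_zero.1 h1
  set P : Finset ℕ := (Finset.univ.biUnion fun j => (ev (fm g (a j)) x).natAbs.primeFactors) \ T₀ with hP
  have hPp : ∀ p ∈ P, p.Prime := by
    intro p hp
    rw [hP, Finset.mem_sdiff] at hp
    obtain ⟨j, -, hp⟩ := Finset.mem_biUnion.1 hp.1
    exact Nat.prime_of_mem_primeFactors hp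
  have h1 := hC₁ x hx hev
  have h2 := hC₂ x hxne
  have h3 := hk L (fun _ => φ) (fun _ => mob g x) (fun _ => hφ) (fun _ j => by
      have := hne j
      simpa using this) (above_finite ℚ S hS).toFinset ((P \ S).image vp) (by
    intro v hv
    obtain ⟨p, hp, rfl⟩ := Finset.mem_image.1 hv
    rw [Finset.mem_sdiff] at hp
    have hpp := hPp p hp.1
    have hp1 := hp.1
    rw [hP, Finset.mem_sdiff, hT₀, Finset.mem_union, Finset.mem_union, not_or, not_or] at hp1
    obtain ⟨hp1, hp2, hp3, hp4⟩ := hp1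
    obtain ⟨j, -, hp1⟩ := Finset.mem_biUnion.1 hp1
    refine ⟨?_, ?_, 0, j, ?_⟩
    · intro hcon
      obtain ⟨p', hp', hmem⟩ := (Set.Finite.mem_toFinset _).1 hcon
      have := over_inj hpp (hS p' hp') (hvp p hpp) hmem
      exact hp.2 (this ▸ hp')
    · intro hcon
      exact hp2 ((Set.Finite.mem_toFinset _).2 ⟨hpp, hcon⟩)
    · have h4 : (p : ℤ) ∣ ev (fm g (a j)) x := Int.natCast_dvd.2 (Nat.dvd_of_mem_primeFactors hp1)
      have h5 : ¬ (p : ℤ) ∣ g.det := by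
        intro h5
        apply hp3
        rw [Nat.mem_primeFactors]
        exact ⟨hpp, Int.natCast_dvd.1 h5, Int.natAbs_ne_zero.2 hg⟩
      have h6 : ¬ p ∣ (a j).den := by
        intro h6
        apply hp4
        refine Finset.mem_biUnion.2 ⟨j, Finset.mem_univ _, ?_⟩
        rw [Nat.mem_primeFactors]
        exact ⟨hpp, h6, (a j).den_ne_zero⟩
      have h7 := near_of_dvd (hN x hx) hx0 hpp (hvp p hpp) h5 h6 h4
      simpa using h7)
  have h4 : ∑ p ∈ P \ S, Real.log (p : ℝ) ≤ ∑ v ∈ (P \ S).image vp, Real.log (Ideal.absNorm v.asIdeal) := by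
    rw [Finset.sum_image]
    · refine Finset.sum_le_sum fun p hp => ?_
      have hpp := hPp p (Finset.mem_sdiff.1 hp).1
      exact le_norm hpp (hvp p hpp)
    · intro p hp p' hp' h
      exact hinj p p' (hPp p (Finset.mem_sdiff.1 hp).1) (hPp p' (Finset.mem_sdiff.1 hp').1) h
  have h5 : ∑ p ∈ P, Real.log (p : ℝ) ≤ ∑ p ∈ P \ S, Real.log (p : ℝ) + ∑ p ∈ S, Real.log (p : ℝ) := by
    rw [← Finset.sum_inter_add_sum_sdiff P S, add_comm]
    refine add_le_add_right ?_ _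
    exact Finset.sum_le_sum_of_subset_of_nonneg Finset.inter_subset_right fun p _ _ => Real.log_natCast_nonneg p
  simp only [Finset.univ_unique, Fin.default_eq_zero, Fin.isValue, Finset.sum_singleton] at h3
  have h6 : (1 - ε) * q * logHeight₁ (mob g x) ≤ (1 - ε) * q * Pool.Agent.W5h9.GC.hgt x + (1 - ε) * q * C₂ := by
    have : 0 ≤ (1 - ε) * q := mul_nonneg (by linarith) (Nat.cast_nonneg _)
    nlinarith
  linarith


/-- the truncated inequality on the set of the good points -/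
theorem truncated {ε κ : ℝ} (hε : ε ≤ 1) (hκ : 0 < κ) (q : ℕ) (α : Fin q → ℤ × ℤ) (T : Finset ℕ)
    (hα : ∀ i, IsCoprime (α i).1 (α i).2) (hT : ∀ p ∈ T, p.Prime) :
    ∃ C : ℝ, ∀ x ∈ {y : ℤ × ℤ | IsCoprime y.1 y.2 ∧ Pool.Agent.W5h9.GC.Good ε κ y},
      (∀ i, x.1 * (α i).2 - x.2 * (α i).1 ≠ 0) →
      (1 - ε) * q * Pool.Agent.W5h9.GC.hgt x ≤ ∑ i, Pool.Agent.W5h9.GC.N1 (α i) T x + C := by
  have hlog : ∀ p : ℕ, 0 ≤ Real.log (p : ℝ) := fun p => Real.log_natCast_nonneg p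
  have hT0 : 0 ≤ ∑ p ∈ T, Real.log (p : ℝ) := Finset.sum_nonneg fun p _ => hlog p
  have hh : ∀ y, 0 ≤ Pool.Agent.W5h9.GC.hgt y := fun y => hgt_nonneg y
  set M : ℝ := ∑ i, Pool.Agent.W5h9.GC.hgt (α i) + ∑ p ∈ T, Real.log (p : ℝ) with hM
  have hM0 : 0 ≤ M := add_nonneg (Finset.sum_nonneg fun i _ => hh _) hT0
  have hq : 0 ≤ (1 - ε) * (q : ℝ) := mul_nonneg (by linarith) (Nat.cast_nonneg _)
  refine ⟨(1 - ε) * q * (M / κ), ?_⟩
  rintro x ⟨hx, hgood⟩ -
  have hN : 0 ≤ ∑ i, Pool.Agent.W5h9.GC.N1 (α i) T x := by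
    refine Finset.sum_nonneg fun i _ => ?_
    unfold Pool.Agent.W5h9.GC.N1
    exact Finset.sum_nonneg fun p _ => hlog p
  rcases le_total M (κ * Pool.Agent.W5h9.GC.hgt x) with hc | hc
  · have h1 := hgood q α T (fun i => ⟨hα i, ?_⟩) hT ?_
    · have h2 : 0 ≤ (1 - ε) * q * (M / κ) := mul_nonneg hq (by positivity)
      linarith [h1.2]
    · have h2 : Pool.Agent.W5h9.GC.hgt (α i) ≤ ∑ i, Pool.Agent.W5h9.GC.hgt (α i) :=
        Finset.single_le_sum (f := fun i => Pool.Agent.W5h9.GC.hgt (α i)) (fun i _ => hh _) (Finset.mem_univ i)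
      linarith
    · have h2 : 0 ≤ ∑ i, Pool.Agent.W5h9.GC.hgt (α i) := Finset.sum_nonneg fun i _ => hh _
      linarith
  · have h1 : Pool.Agent.W5h9.GC.hgt x ≤ M / κ := by
      rw [le_div_iff₀ hκ, mul_comm]
      exact hc
    have h2 := mul_le_mul_of_nonneg_left h1 hq
    linarith

end Pool.Agent.W5h24.EP
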