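import Pool.Agent.W5h24.EP.Bridge
import Pool.Agent.W5h9.GC.Sp

/-!
# Every point in almost all coordinates: the simple poles of the transformed numbers
-/

set_option autoImplicit false

namespace Pool.Agent.W5h24.EP

open Filter Matrix
open Pool.Agent.W5h9.GC (ev mob)
open Pool.Agent.W223.AK (ht)
open Pool.Agent.Y733.LS (sp)

/-- the images of `y` under all small transformations have nearly only simple poles -/
def Poles (η μ C : ℝ) (D : ℕ) (y : ℤ × ℤ) : Prop :=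
  ∀ m : Matrix (Fin 2) (Fin 2) ℤ, m.det ≠ 0 →
    (∀ i j, Real.log (m i j).natAbs ≤ μ * Real.log D) →
    ev (m 1 0, m 1 1) y ≠ 0 ∧
    ∀ (K : Type) [Field K] [NumberField K],
      ∑ p ∈ (NumberField.discr K).natAbs.primeFactors, Real.log p ≤ μ * Real.log D →
      (1 - η) * ht ((mob m y : ℚ) : K) ≤ sp ((mob m y : ℚ) : K) ∧
      Module.finrank ℚ K * C ≤ ht ((mob m y : ℚ) : K)

theorem bridge_sp (A η : ℝ) (hA : 0 ≤ A) (hη0 : 0 < η) (hη : η < 1)
    (hs : A < 5 ∨ (1 - η / 2) * (A + 1) < 4) (C : ℝ) :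
    ∃ δ μ : ℝ, 0 < δ ∧ 0 < μ ∧ ∀ᶠ D : ℕ in atTop,
      (Ball D).Finite ∧ (D : ℝ) ^ 2 / 2 ≤ ((Ball D).ncard : ℝ) ∧
      ∀ x : ℤ × ℤ, IsCoprime x.1 x.2 → hgt x ≤ A * Real.log D →
        (({g : SpecialLinearGroup (Fin 2) ℤ | g ∈ Ball D ∧ ¬ Poles η μ C D (act g x)}.ncard : ℕ) : ℝ) ≤
            (D : ℝ) ^ (-δ) * (Ball D).ncard := by
  -- the parameters
  obtain ⟨ε, hε0, hε1, hεη, hεs⟩ : ∃ ε : ℝ, 0 < ε ∧ ε ≤ 1 ∧ 2 * ε < η ∧ Size A ε := by
    rcases hs with h | h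
    · exact ⟨η / 4, by linarith, by linarith, by linarith, Or.inl h⟩
    · have hA1 : 0 < A + 1 := by linarith
      have h1 : 0 < (4 - (1 - η / 2) * (A + 1)) / (2 * (A + 1)) := div_pos (by linarith) (by linarith)
      refine ⟨η / 2 - min (η / 4) ((4 - (1 - η / 2) * (A + 1)) / (2 * (A + 1))), ?_, ?_, ?_, Or.inr ?_⟩
      · have := min_le_left (η / 4) ((4 - (1 - η / 2) * (A + 1)) / (2 * (A + 1)))
        linarith
      · have : 0 < min (η / 4) ((4 - (1 - η / 2) * (A + 1)) / (2 * (A + 1))) :=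
          lt_min (by linarith) h1
        linarith
      · have : 0 < min (η / 4) ((4 - (1 - η / 2) * (A + 1)) / (2 * (A + 1))) :=
          lt_min (by linarith) h1
        linarith
      · have h2 := min_le_right (η / 4) ((4 - (1 - η / 2) * (A + 1)) / (2 * (A + 1)))
        have h3 := mul_le_mul_of_nonneg_right h2 hA1.le
        have h4 : (4 - (1 - η / 2) * (A + 1)) / (2 * (A + 1)) * (A + 1) =
            (4 - (1 - η / 2) * (A + 1)) / 2 := by
          field_simp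
        rw [h4] at h3
        have e : (1 - (η / 2 - min (η / 4) ((4 - (1 - η / 2) * (A + 1)) / (2 * (A + 1))))) * (A + 1) =
            (1 - η / 2) * (A + 1) +
              min (η / 4) ((4 - (1 - η / 2) * (A + 1)) / (2 * (A + 1))) * (A + 1) := by ring
        rw [e]
        linarith
  obtain ⟨δ, κ, μ, hδ, hκ, hμ, h⟩ := bridge A ε hA hε0 hε1 hεs
  obtain ⟨κ', hκ'0, hκ'κ, hκ'η⟩ : ∃ κ' : ℝ, 0 < κ' ∧ 4 * κ' ≤ κ ∧ 2 * ε + 2 * κ' < η := by
    refine ⟨min (κ / 4) ((η - 2 * ε) / 4), lt_min (by linarith) (by linarith), ?_, ?_⟩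
    · have := min_le_left (κ / 4) ((η - 2 * ε) / 4)
      linarith
    · have := min_le_right (κ / 4) ((η - 2 * ε) / 4)
      linarith
  obtain ⟨H₀, hH⟩ := Pool.Agent.W5h9.GC.good_sp hε0.le hκ'0 hη hκ'η C
  refine ⟨δ, κ' * μ, hδ, by positivity, ?_⟩
  have hev : ∀ᶠ D : ℕ in atTop, H₀ ≤ μ * Real.log D :=
    (Tendsto.const_mul_atTop hμ
      (Real.tendsto_log_atTop.comp tendsto_natCast_atTop_atTop)).eventually_ge_atTop _
  filter_upwards [h, hev] with D hD hHD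
  obtain ⟨b1, b2, b3⟩ := hD
  refine ⟨b1, b2, fun x hx hxA => ?_⟩
  refine le_trans ?_ (b3 x hx hxA)
  have hfin : ({g : SpecialLinearGroup (Fin 2) ℤ | g ∈ Ball D ∧
      ¬ (Pool.Agent.W5h9.GC.Good ε κ (act g x) ∧ μ * Real.log D ≤ hgt (act g x))}).Finite :=
    b1.subset fun g hg => hg.1
  refine Nat.cast_le.2 (Set.ncard_le_ncard ?_ hfin)
  rintro g ⟨hg, hbad⟩
  refine ⟨hg, ?_⟩
  rintro ⟨hgood, hlow⟩
  apply hbad
  intro m hm hmb
  have hconv : κ' * μ * Real.log D ≤ κ' * Pool.Agent.W5h9.GC.hgt (act g x) := by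
    rw [mul_assoc]
    exact mul_le_mul_of_nonneg_left hlow hκ'0.le
  obtain ⟨h1, h2⟩ := hH (act g x) (coprime_act g hx) (hHD.trans hlow) (good_mono hκ'κ hgood) m hm
    (fun i j => (hmb i j).trans hconv)
  exact ⟨h1, fun K _ _ hK => h2 K (hK.trans hconv)⟩

end Pool.Agent.W5h24.EP
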